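import Mathlib

set_option autoImplicit false

open Filter Topology
open scoped ENNReal

namespace Pool.Agent.W_MP_d1e581_al

section Defs

variable {H : Type} [Group H]

/-- Word length of `h` with respect to `S`: the least length of a word in `S ∪ S⁻¹`
representing `h`. -/
noncomputable def wordNorm (S : Set H) (h : H) : ℕ :=
  sInf {n : ℕ | ∃ l : List H, l.length = n ∧ (∀ s ∈ l, s ∈ S ∨ s⁻¹ ∈ S) ∧ l.prod = h}

/-- The word metric (the path metric of the Cayley graph, on its vertex set `H`). -/
noncomputable def wordDist (S : Set H) (g h : H) : ℝ := (wordNorm S (g⁻¹ * h) : ℝ)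

/-- Gromov product `(g | h)_w` in the word metric. -/
noncomputable def gromovProd (S : Set H) (w g h : H) : ℝ :=
  (wordDist S g w + wordDist S h w - wordDist S g h) / 2

/-- `S` is a finite generating set of `H` whose word metric is Gromov hyperbolic. -/
def IsHyperbolicPair (S : Set H) : Prop :=
  S.Finite ∧ Subgroup.closure S = ⊤ ∧
    ∃ δ : ℝ, ∀ w x y z : H,
      min (gromovProd S w x y) (gromovProd S w y z) - δ ≤ gromovProd S w x z

/-- `H` is not virtually cyclic. -/
def IsNonElementary (H : Type) [Group H] : Prop :=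
  ¬ ∃ C : Subgroup H, C.FiniteIndex ∧ IsCyclic C

/-- Sequences in `H` converging to infinity: `(x m | x n) → ∞` as `m, n → ∞`. -/
def ConvInf (S : Set H) (x : ℕ → H) : Prop :=
  Tendsto (fun mn : ℕ × ℕ => gromovProd S 1 (x mn.1) (x mn.2)) atTop atTop

/-- The type of sequences converging to infinity. -/
def GromovSeq (S : Set H) : Type := {x : ℕ → H // ConvInf S x}

/-- Two such sequences are equivalent when `(x n | y n) → ∞`. -/
def GromovEquiv (S : Set H) (x y : GromovSeq S) : Prop :=
  Tendsto (fun n : ℕ => gromovProd S 1 (x.1 n) (y.1 n)) atTop atTop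

/-- The Gromov boundary `∂H` (computed in the Cayley graph of `(H, S)`). -/
def Bdry (S : Set H) : Type := Quot (GromovEquiv S)

/-- The sequence `x` of elements of `H` converges to the boundary point `p`. -/
def TendstoBdry (S : Set H) (x : ℕ → H) (p : Bdry S) : Prop :=
  ∃ hx : ConvInf S x, (Quot.mk _ (⟨x, hx⟩ : GromovSeq S) : Bdry S) = p

/-- Gromov product of boundary points:
`(p | q) = sup liminf_{m,n → ∞} (x m | y n)` over all sequences `x → p`, `y → q`. -/
noncomputable def bdryProd (S : Set H) (p q : Bdry S) : ℝ≥0∞ :=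
  ⨆ (x : GromovSeq S) (y : GromovSeq S)
    (_ : (Quot.mk _ x : Bdry S) = p) (_ : (Quot.mk _ y : Bdry S) = q),
    liminf (fun mn : ℕ × ℕ => ENNReal.ofReal (gromovProd S 1 (x.1 mn.1) (y.1 mn.2))) atTop

/-- `m` is a visual metric on `∂H` with parameter `a`: `m(p, q)` is bounded above and below by
constant multiples of `a ^ (-(p | q))`. -/
def IsVisualMetric (S : Set H) (a : ℝ) (m : MetricSpace (Bdry S)) : Prop :=
  1 < a ∧ ∃ C : ℝ, 0 < C ∧ ∀ p q : Bdry S, p ≠ q →
    bdryProd S p q ≠ ∞ ∧
    a ^ (-(bdryProd S p q).toReal) / C ≤ m.dist p q ∧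
    m.dist p q ≤ C * a ^ (-(bdryProd S p q).toReal)

/-- Convergence action: the induced action on the space of distinct triples is properly
discontinuous. -/
def IsConvergenceAction (H : Type) [Group H] (Z : Type) [TopologicalSpace Z] [MulAction H Z] :
    Prop :=
  ∀ K : Set (Z × Z × Z), IsCompact K →
    (∀ t ∈ K, t.1 ≠ t.2.1 ∧ t.1 ≠ t.2.2 ∧ t.2.1 ≠ t.2.2) →
    {h : H | ((fun t : Z × Z × Z => (h • t.1, h • t.2.1, h • t.2.2)) '' K ∩ K).Nonempty}.Finite

/-- `i : ∂H → Z` is a Cannon-Thurston map: it is continuous (for the topology of `∂H`, given by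
the visual metric `m`), and for some `z₀` the orbit map `h ↦ h • z₀` together with `i` is
continuous at every point of `∂H`. -/
def IsCannonThurston (S : Set H) (m : MetricSpace (Bdry S)) {Z : Type} [TopologicalSpace Z]
    [MulAction H Z] (i : Bdry S → Z) : Prop :=
  (∀ p : Bdry S, Tendsto i (@nhds (Bdry S) m.toUniformSpace.toTopologicalSpace p) (𝓝 (i p))) ∧
  ∃ z₀ : Z, ∀ (x : ℕ → H) (p : Bdry S), TendstoBdry S x p →
    Tendsto (fun n => x n • z₀) atTop (𝓝 (i p))

/-- The set of endpoints of the lamination `{(p, q) : p ≠ q, i p = i q}`. -/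
def endpoints (S : Set H) {Z : Type} (i : Bdry S → Z) : Set (Bdry S) :=
  {p | ∃ q, p ≠ q ∧ i p = i q}

/-- Hausdorff dimension of a subset of `∂H` in the metric `m`. -/
noncomputable def hdim (S : Set H) (m : MetricSpace (Bdry S)) (A : Set (Bdry S)) : ℝ≥0∞ :=
  @dimH (Bdry S) m.toEMetricSpace A

end Defs

end Pool.Agent.W_MP_d1e581_al
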