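import Mathlib
import Pool.Agent.W_MP_d1e581_al.Defs

set_option autoImplicit false

open Filter Topology

namespace Pool.Agent.W_MP_d1e581_al

section CPL

variable {β : Type} [DecidableEq β]

/-- length of the longest common prefix -/
def cpl : List β → List β → ℕ
  | a :: l, b :: m => if a = b then cpl l m + 1 else 0
  | _, _ => 0

@[simp] lemma cpl_nil_left (m : List β) : cpl [] m = 0 := by cases m <;> rfl
@[simp] lemma cpl_nil_right (l : List β) : cpl l [] = 0 := by cases l <;> rfl
lemma cpl_cons (a b : β) (l m : List β) :
    cpl (a :: l) (b :: m) = if a = b then cpl l m + 1 else 0 := rfl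

lemma cpl_comm (l m : List β) : cpl l m = cpl m l := by
  induction l generalizing m with
  | nil => simp
  | cons a l ih =>
    cases m with
    | nil => simp
    | cons b m =>
      rw [cpl_cons, cpl_cons, ih m]
      simp only [eq_comm]

lemma cpl_self (l : List β) : cpl l l = l.length := by
  induction l with
  | nil => rfl
  | cons a l ih => simp [cpl_cons, ih]

lemma cpl_le_left (l m : List β) : cpl l m ≤ l.length := by
  induction l generalizing m with
  | nil => simp
  | cons a l ih =>
    cases m with
    | nil => simp
    | cons b m =>
      rw [cpl_cons]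
      split_ifs
      · simpa using ih m
      · simp

lemma cpl_le_right (l m : List β) : cpl l m ≤ m.length := by
  rw [cpl_comm]; exact cpl_le_left m l

lemma le_cpl_iff (l m : List β) (N : ℕ) :
    N ≤ cpl l m ↔ ∀ n < N, l[n]? = m[n]? ∧ (l[n]?).isSome := by
  induction l generalizing m N with
  | nil =>
    simp only [cpl_nil_left, nonpos_iff_eq_zero, List.getElem?_nil, Option.isSome_none,
      Bool.false_eq_true, and_false, imp_false, not_lt]
    constructor
    · rintro rfl n; omega
    · intro h; have := h 0; omega
  | cons a l ih =>
    cases m with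
    | nil =>
      simp only [cpl_nil_right, nonpos_iff_eq_zero, List.getElem?_nil]
      constructor
      · rintro rfl n hn; omega
      · intro h
        by_contra hN
        have := h 0 (by omega)
        simp at this
    | cons b m =>
      rw [cpl_cons]
      split_ifs with hab
      · subst hab
        constructor
        · intro hN n hn
          cases n with
          | zero => simp
          | succ n =>
            simp only [List.getElem?_cons_succ]
            exact (ih m (N - 1)).mp (by omega) n (by omega)
        · intro h
          cases N with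
          | zero => omega
          | succ N =>
            have := (ih m N).mpr (fun n hn => by
              have := h (n + 1) (by omega)
              simpa using this)
            omega
      · constructor
        · intro hN n hn; omega
        · intro h
          by_contra hN
          have := h 0 (by omega)
          simp at this
          exact hab this

lemma cpl_le_of_ne (l m : List β) (N : ℕ) (h : l[N]? ≠ m[N]?) : cpl l m ≤ N := by
  by_contra hlt
  push Not at hlt
  exact h ((le_cpl_iff l m (N + 1)).mp hlt N (by omega)).1

lemma min_cpl_le (l m k : List β) : min (cpl l m) (cpl m k) ≤ cpl l k := by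
  rw [le_cpl_iff]
  intro n hn
  have h1 := (le_cpl_iff l m (n + 1)).mp (by omega) n (by omega)
  have h2 := (le_cpl_iff m k (n + 1)).mp (by omega) n (by omega)
  exact ⟨h1.1.trans h2.1, h1.2⟩

/-- decomposition at the common prefix -/
lemma cpl_decomp (l m : List β) : ∃ u l' m' : List β, l = u ++ l' ∧ m = u ++ m' ∧
    u.length = cpl l m ∧ ∀ a ∈ l'.head?, ∀ b ∈ m'.head?, a ≠ b := by
  induction l generalizing m with
  | nil => exact ⟨[], [], m, rfl, rfl, by simp, by simp⟩
  | cons a l ih =>
    cases m with
    | nil => exact ⟨[], a :: l, [], rfl, rfl, by simp, by simp⟩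
    | cons b m =>
      rw [cpl_cons]
      split_ifs with hab
      · subst hab
        obtain ⟨u, l', m', h1, h2, h3, h4⟩ := ih m
        exact ⟨a :: u, l', m', by simp [h1], by simp [h2], by simp [h3], h4⟩
      · refine ⟨[], a :: l, b :: m, rfl, rfl, rfl, ?_⟩
        intro x hx y hy
        simp only [List.head?_cons, Option.mem_def, Option.some.injEq] at hx hy
        subst hx; subst hy
        exact hab

end CPL

section FG

variable {α : Type} [DecidableEq α]

open FreeGroup

/-- common prefix length of the reduced words of two elements -/
def lcp (x y : FreeGroup α) : ℕ := cpl x.toWord y.toWord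

lemma lcp_comm (x y : FreeGroup α) : lcp x y = lcp y x := cpl_comm _ _

lemma lcp_self (x : FreeGroup α) : lcp x x = x.norm := cpl_self _

lemma lcp_le_left (x y : FreeGroup α) : lcp x y ≤ x.norm := cpl_le_left _ _

lemma lcp_le_right (x y : FreeGroup α) : lcp x y ≤ y.norm := cpl_le_right _ _

lemma min_lcp_le (x y z : FreeGroup α) : min (lcp x y) (lcp y z) ≤ lcp x z := min_cpl_le _ _ _

lemma norm_inv_mul (x y : FreeGroup α) : (x⁻¹ * y).norm + 2 * lcp x y = x.norm + y.norm := by
  obtain ⟨u, x', y', hx, hy, hu, hne⟩ := cpl_decomp x.toWord y.toWord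
  have hxr : IsReduced (u ++ x') := by rw [← hx]; exact isReduced_toWord
  have hyr : IsReduced (u ++ y') := by rw [← hy]; exact isReduced_toWord
  have hx'r : IsReduced x' := (List.isChain_append.mp hxr).2.1
  have hy'r : IsReduced y' := (List.isChain_append.mp hyr).2.1
  have e1 : x⁻¹ * y = FreeGroup.mk (invRev x' ++ y') := by
    have hx1 : x = FreeGroup.mk (u ++ x') := by rw [← hx, mk_toWord]
    have hy1 : y = FreeGroup.mk (u ++ y') := by rw [← hy, mk_toWord]
    rw [hx1, hy1, ← mul_mk, ← mul_mk, ← mul_mk, mul_inv_rev, inv_mk]
    group
  have hinv : IsReduced (invRev x') := by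
    have : reduce (invRev x') = invRev x' := by rw [reduce_invRev, hx'r.reduce_eq]
    exact IsReduced.of_reduce_eq this
  have hred : IsReduced (invRev x' ++ y') := by
    unfold FreeGroup.IsReduced
    rw [List.isChain_append]
    refine ⟨hinv, hy'r, ?_⟩
    intro a ha b hb hab
    have h1 : ∃ c ∈ x'.head?, a = (c.1, !c.2) := by
      cases x' with
      | nil => simp [invRev] at ha
      | cons c x' =>
        refine ⟨c, by simp, ?_⟩
        simp [invRev] at ha
        exact ha.symm
    obtain ⟨c, hc, rfl⟩ := h1
    have h2 := hne c hc b hb
    simp only at hab ⊢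
    have h3 : c.2 ≠ b.2 := fun h => h2 (Prod.ext hab h)
    cases hc2 : c.2 <;> cases hb2 : b.2 <;> simp_all
  have e2 : (x⁻¹ * y).norm = x'.length + y'.length := by
    unfold FreeGroup.norm
    rw [e1, toWord_mk, hred.reduce_eq, List.length_append, invRev_length]
  have e3 : x.norm = u.length + x'.length := by
    unfold FreeGroup.norm; rw [hx, List.length_append]
  have e4 : y.norm = u.length + y'.length := by
    unfold FreeGroup.norm; rw [hy, List.length_append]
  have e5 : lcp x y = u.length := hu.symm
  omega

lemma lcp_translate (h x y : FreeGroup α) : lcp x y ≤ lcp (h⁻¹ * x) (h⁻¹ * y) + h.norm := by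
  have h1 := norm_inv_mul x y
  have h2 := norm_inv_mul (h⁻¹ * x) (h⁻¹ * y)
  have e : (h⁻¹ * x)⁻¹ * (h⁻¹ * y) = x⁻¹ * y := by group
  rw [e] at h2
  have h3 : x.norm ≤ h.norm + (h⁻¹ * x).norm := by
    have := norm_mul_le h (h⁻¹ * x)
    rwa [mul_inv_cancel_left] at this
  have h4 : y.norm ≤ h.norm + (h⁻¹ * y).norm := by
    have := norm_mul_le h (h⁻¹ * y)
    rwa [mul_inv_cancel_left] at this
  omega

end FG

end Pool.Agent.W_MP_d1e581_al
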