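import Mathlib
import Pool.Agent.W_MP_d1e581_al.Words

set_option autoImplicit false

open Filter Topology
open scoped ENNReal

namespace Pool.Agent.W_MP_d1e581_al

open FreeGroup

/-- the free group of rank three -/
abbrev F3 : Type := FreeGroup (Fin 3)

/-- the standard basis -/
def S3 : Set F3 := Set.range FreeGroup.of

lemma norm_prod_le (l : List F3) (hl : ∀ s ∈ l, s ∈ S3 ∨ s⁻¹ ∈ S3) : l.prod.norm ≤ l.length := by
  induction l with
  | nil => simp
  | cons s l ih =>
    rw [List.prod_cons, List.length_cons]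
    have h1 := FreeGroup.norm_mul_le s l.prod
    have h2 := ih (fun t ht => hl t (List.mem_cons_of_mem _ ht))
    have h3 : s.norm = 1 := by
      rcases hl s List.mem_cons_self with ⟨i, hi⟩ | ⟨i, hi⟩
      · rw [← hi, FreeGroup.norm_of]
      · rw [← FreeGroup.norm_inv_eq, ← hi, FreeGroup.norm_of]
    omega

lemma exists_word (L : List (Fin 3 × Bool)) : ∃ l : List F3, l.length = L.length ∧
    (∀ s ∈ l, s ∈ S3 ∨ s⁻¹ ∈ S3) ∧ l.prod = FreeGroup.mk L := by
  induction L with
  | nil => exact ⟨[], rfl, by simp, by simp [FreeGroup.one_eq_mk]⟩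
  | cons a L ih =>
    obtain ⟨l, h1, h2, h3⟩ := ih
    refine ⟨FreeGroup.mk [a] :: l, by simp [h1], ?_, ?_⟩
    · intro s hs
      rcases List.mem_cons.mp hs with rfl | hs
      · rcases a with ⟨i, b⟩
        cases b
        · right
          refine ⟨i, ?_⟩
          simp [FreeGroup.of, FreeGroup.inv_mk, FreeGroup.invRev]
        · left
          exact ⟨i, rfl⟩
      · exact h2 s hs
    · rw [List.prod_cons, h3, FreeGroup.mul_mk]
      rfl

lemma wordNorm_eq (x : F3) : wordNorm S3 x = x.norm := by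
  unfold wordNorm
  apply le_antisymm
  · apply Nat.sInf_le
    obtain ⟨l, h1, h2, h3⟩ := exists_word x.toWord
    exact ⟨l, h1, h2, by rw [h3, FreeGroup.mk_toWord]⟩
  · apply le_csInf
    · obtain ⟨l, h1, h2, h3⟩ := exists_word x.toWord
      exact ⟨_, l, rfl, h2, by rw [h3, FreeGroup.mk_toWord]⟩
    · rintro n ⟨l, rfl, h2, rfl⟩
      exact norm_prod_le l h2

lemma gromovProd_eq (w x y : F3) : gromovProd S3 w x y = (lcp (w⁻¹ * x) (w⁻¹ * y) : ℝ) := by
  unfold gromovProd wordDist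
  rw [wordNorm_eq, wordNorm_eq, wordNorm_eq]
  have h1 : (x⁻¹ * w).norm = (w⁻¹ * x).norm := by
    rw [← FreeGroup.norm_inv_eq]; congr 1; group
  have h2 : (y⁻¹ * w).norm = (w⁻¹ * y).norm := by
    rw [← FreeGroup.norm_inv_eq]; congr 1; group
  have h3 := norm_inv_mul (w⁻¹ * x) (w⁻¹ * y)
  have h4 : (w⁻¹ * x)⁻¹ * (w⁻¹ * y) = x⁻¹ * y := by group
  rw [h4] at h3
  rw [h1, h2]
  have h5 : ((x⁻¹ * y).norm : ℝ) + 2 * (lcp (w⁻¹ * x) (w⁻¹ * y) : ℝ) =
      ((w⁻¹ * x).norm : ℝ) + ((w⁻¹ * y).norm : ℝ) := by exact_mod_cast h3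
  linarith

lemma gromovProd_one (x y : F3) : gromovProd S3 1 x y = (lcp x y : ℝ) := by
  rw [gromovProd_eq]; simp

lemma hyperbolic_S3 : IsHyperbolicPair S3 := by
  refine ⟨Set.finite_range _, ?_, 0, ?_⟩
  · exact FreeGroup.closure_range_of (Fin 3)
  · intro w x y z
    rw [gromovProd_eq, gromovProd_eq, gromovProd_eq, sub_zero]
    exact_mod_cast min_lcp_le _ _ _

lemma convInf_iff (x : ℕ → F3) : ConvInf S3 x ↔
    ∀ N : ℕ, ∃ M : ℕ, ∀ m n : ℕ, M ≤ m → M ≤ n → N ≤ lcp (x m) (x n) := by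
  unfold ConvInf
  rw [tendsto_atTop]
  constructor
  · intro h N
    have h1 := h (N : ℝ)
    rw [eventually_atTop] at h1
    obtain ⟨⟨a, b⟩, hab⟩ := h1
    refine ⟨max a b, fun m n hm hn => ?_⟩
    have h2 := hab (m, n) ⟨(le_max_left a b).trans hm, (le_max_right a b).trans hn⟩
    rw [gromovProd_one] at h2
    exact_mod_cast h2
  · intro h r
    obtain ⟨N, hN⟩ := exists_nat_ge r
    obtain ⟨M, hM⟩ := h N
    rw [eventually_atTop]
    refine ⟨(M, M), ?_⟩
    rintro ⟨m, n⟩ ⟨hm, hn⟩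
    rw [gromovProd_one]
    refine hN.trans ?_
    exact_mod_cast hM m n hm hn

lemma gromovEquiv_iff (x y : GromovSeq S3) : GromovEquiv S3 x y ↔
    ∀ N : ℕ, ∃ M : ℕ, ∀ n : ℕ, M ≤ n → N ≤ lcp (x.1 n) (y.1 n) := by
  unfold GromovEquiv
  rw [tendsto_atTop]
  constructor
  · intro h N
    have h1 := h (N : ℝ)
    rw [eventually_atTop] at h1
    obtain ⟨M, hM⟩ := h1
    refine ⟨M, fun n hn => ?_⟩
    have h2 := hM n hn
    rw [gromovProd_one] at h2
    exact_mod_cast h2
  · intro h r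
    obtain ⟨N, hN⟩ := exists_nat_ge r
    obtain ⟨M, hM⟩ := h N
    rw [eventually_atTop]
    refine ⟨M, fun n hn => ?_⟩
    rw [gromovProd_one]
    refine hN.trans ?_
    exact_mod_cast hM n hn

/-! ### limit words -/

lemma exists_letter (x : GromovSeq S3) (n : ℕ) :
    ∃ a : Fin 3 × Bool, ∃ M : ℕ, ∀ m, M ≤ m → (x.1 m).toWord[n]? = some a := by
  obtain ⟨M, hM⟩ := (convInf_iff x.1).mp x.2 (n + 1)
  have h1 := (le_cpl_iff _ _ _).mp (hM M M le_rfl le_rfl) n (by omega)
  obtain ⟨a, ha⟩ := Option.isSome_iff_exists.mp h1.2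
  refine ⟨a, M, fun m hm => ?_⟩
  rw [← ha]
  exact ((le_cpl_iff _ _ _).mp (hM m M hm le_rfl) n (by omega)).1

/-- the limit word of a Gromov sequence -/
noncomputable def limWord (x : GromovSeq S3) (n : ℕ) : Fin 3 × Bool :=
  Classical.choose (exists_letter x n)

lemma limWord_spec (x : GromovSeq S3) (n : ℕ) :
    ∃ M : ℕ, ∀ m, M ≤ m → (x.1 m).toWord[n]? = some (limWord x n) :=
  Classical.choose_spec (exists_letter x n)

lemma limWord_spec' (x : GromovSeq S3) (N : ℕ) :
    ∃ M : ℕ, ∀ m, M ≤ m → ∀ n < N, (x.1 m).toWord[n]? = some (limWord x n) := by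
  induction N with
  | zero => exact ⟨0, by omega⟩
  | succ N ih =>
    obtain ⟨M, hM⟩ := ih
    obtain ⟨M', hM'⟩ := limWord_spec x N
    refine ⟨max M M', fun m hm n hn => ?_⟩
    rcases Nat.lt_succ_iff_lt_or_eq.mp hn with h | h
    · exact hM m ((le_max_left _ _).trans hm) n h
    · subst h
      exact hM' m ((le_max_right _ _).trans hm)

lemma limWord_unique (x : GromovSeq S3) (n : ℕ) (a : Fin 3 × Bool) (M : ℕ)
    (h : ∀ m, M ≤ m → (x.1 m).toWord[n]? = some a) : limWord x n = a := by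
  obtain ⟨M', hM'⟩ := limWord_spec x n
  have h1 := hM' (max M M') (le_max_right _ _)
  have h2 := h (max M M') (le_max_left _ _)
  rw [h1] at h2
  exact Option.some.inj h2

/-- if the limit words agree on the first `N` letters then the products are eventually `≥ N` -/
lemma lcp_ge_of_agree (x y : GromovSeq S3) (N : ℕ) (h : ∀ n < N, limWord x n = limWord y n) :
    ∃ M : ℕ, ∀ m n, M ≤ m → M ≤ n → N ≤ lcp (x.1 m) (y.1 n) := by
  obtain ⟨M, hM⟩ := limWord_spec' x N
  obtain ⟨M', hM'⟩ := limWord_spec' y N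
  refine ⟨max M M', fun m n hm hn => ?_⟩
  unfold lcp
  rw [le_cpl_iff]
  intro k hk
  rw [hM m ((le_max_left _ _).trans hm) k hk, hM' n ((le_max_right _ _).trans hn) k hk, h k hk]
  simp

lemma limWord_eq_of_equiv (x y : GromovSeq S3) (h : GromovEquiv S3 x y) :
    limWord x = limWord y := by
  funext n
  rw [gromovEquiv_iff] at h
  obtain ⟨M, hM⟩ := h (n + 1)
  obtain ⟨M', hM'⟩ := limWord_spec y n
  apply limWord_unique x n _ (max M M')
  intro m hm
  rw [← hM' m ((le_max_right _ _).trans hm)]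
  exact ((le_cpl_iff _ _ _).mp (hM m ((le_max_left _ _).trans hm)) n (by omega)).1

lemma equiv_of_limWord_eq (x y : GromovSeq S3) (h : limWord x = limWord y) :
    GromovEquiv S3 x y := by
  rw [gromovEquiv_iff]
  intro N
  obtain ⟨M, hM⟩ := lcp_ge_of_agree x y N (fun n _ => by rw [h])
  exact ⟨M, fun n hn => hM n n hn hn⟩

/-- the limit word of a boundary point -/
noncomputable def bWord : Bdry S3 → (ℕ → Fin 3 × Bool) :=
  Quot.lift limWord limWord_eq_of_equiv

lemma bWord_mk (x : GromovSeq S3) : bWord (Quot.mk _ x) = limWord x := rfl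

lemma bWord_injective : Function.Injective bWord := by
  intro p q h
  induction p using Quot.ind with
  | mk x =>
    induction q using Quot.ind with
    | mk y => exact Quot.sound (equiv_of_limWord_eq x y h)

/-- the metric `2 ^ (- common prefix length)` -/
noncomputable def m3 : MetricSpace (Bdry S3) := by
  letI : TopologicalSpace (Fin 3 × Bool) := ⊥
  haveI : DiscreteTopology (Fin 3 × Bool) := ⟨rfl⟩
  letI : MetricSpace (ℕ → Fin 3 × Bool) := PiNat.metricSpace
  exact MetricSpace.induced bWord bWord_injective inferInstance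

lemma m3_dist (p q : Bdry S3) (h : p ≠ q) :
    m3.dist p q = (1 / 2 : ℝ) ^ PiNat.firstDiff (bWord p) (bWord q) :=
  PiNat.dist_eq_of_ne (fun h' => h (bWord_injective h'))

lemma bdryProd_eq (p q : Bdry S3) (h : p ≠ q) :
    bdryProd S3 p q = (PiNat.firstDiff (bWord p) (bWord q) : ℝ≥0∞) := by
  have hne : bWord p ≠ bWord q := fun h' => h (bWord_injective h')
  set N := PiNat.firstDiff (bWord p) (bWord q) with hN
  have key : ∀ x y : GromovSeq S3, (Quot.mk _ x : Bdry S3) = p → (Quot.mk _ y : Bdry S3) = q →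
      liminf (fun mn : ℕ × ℕ => ENNReal.ofReal (gromovProd S3 1 (x.1 mn.1) (y.1 mn.2))) atTop =
        (N : ℝ≥0∞) := by
    intro x y hx hy
    have hx' : limWord x = bWord p := by rw [← hx, bWord_mk]
    have hy' : limWord y = bWord q := by rw [← hy, bWord_mk]
    obtain ⟨M, hM⟩ := lcp_ge_of_agree x y N (fun n hn => by
      rw [hx', hy']; exact PiNat.apply_eq_of_lt_firstDiff hn)
    obtain ⟨M1, hM1⟩ := limWord_spec x N
    obtain ⟨M2, hM2⟩ := limWord_spec y N
    have hev : (fun mn : ℕ × ℕ => ENNReal.ofReal (gromovProd S3 1 (x.1 mn.1) (y.1 mn.2)))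
        =ᶠ[atTop] fun _ => (N : ℝ≥0∞) := by
      rw [EventuallyEq, eventually_atTop]
      refine ⟨(max M (max M1 M2), max M (max M1 M2)), ?_⟩
      rintro ⟨m, n⟩ ⟨hm, hn⟩
      simp only at hm hn
      have h1 : N ≤ lcp (x.1 m) (y.1 n) := hM m n (by omega) (by omega)
      have h2 : lcp (x.1 m) (y.1 n) ≤ N := by
        apply cpl_le_of_ne
        rw [hM1 m (by omega), hM2 n (by omega), hx', hy']
        intro h3
        exact PiNat.apply_firstDiff_ne hne (Option.some.inj h3)
      have h3 : lcp (x.1 m) (y.1 n) = N := le_antisymm h2 h1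
      simp only
      rw [gromovProd_one, h3, ENNReal.ofReal_natCast]
    rw [liminf_congr hev]
    exact liminf_const _
  unfold bdryProd
  obtain ⟨x, hx⟩ := Quot.exists_rep p
  obtain ⟨y, hy⟩ := Quot.exists_rep q
  apply le_antisymm
  · refine iSup_le fun x => iSup_le fun y => iSup_le fun hx => iSup_le fun hy => ?_
    rw [key x y hx hy]
  · refine le_iSup_of_le x (le_iSup_of_le y (le_iSup_of_le hx (le_iSup_of_le hy ?_)))
    rw [key x y hx hy]

lemma visual_m3 : IsVisualMetric S3 2 m3 := by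
  refine ⟨by norm_num, 1, one_pos, fun p q hpq => ?_⟩
  rw [bdryProd_eq p q hpq, m3_dist p q hpq]
  refine ⟨ENNReal.natCast_ne_top _, ?_, ?_⟩ <;>
  · rw [ENNReal.toReal_natCast, Real.rpow_neg (by norm_num), Real.rpow_natCast]
    simp

end Pool.Agent.W_MP_d1e581_al
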