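import Mathlib
import Pool.Agent.W_MP_d1e581_al.Metric

set_option autoImplicit false

open Filter Topology
open scoped ENNReal

namespace Pool.Agent.W_MP_d1e581_al

open FreeGroup

/-- the reduced word of `x` starts with the third generator -/
def sC (x : F3) : Bool := decide (x.toWord[0]? = some ((2 : Fin 3), true))

lemma sC_eq_of_lcp {x y : F3} (h : 1 ≤ lcp x y) : sC x = sC y := by
  have h1 := (le_cpl_iff _ _ _).mp h 0 (by omega)
  unfold sC
  rw [h1.1]

/-- if `[e⁻¹ y starts with c]` differs from `[e⁻¹ starts with c]` then `e` is a prefix of `y` -/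
lemma lcp_eq_of_sC_ne {e y : F3} (h : sC (e⁻¹ * y) ≠ sC e⁻¹) : lcp y e = e.norm := by
  have h0 : lcp (e⁻¹ * y) e⁻¹ = 0 := by
    by_contra h1
    exact h (sC_eq_of_lcp (by omega))
  have h1 := norm_inv_mul (e⁻¹ * y) e⁻¹
  have h2 : (e⁻¹ * y)⁻¹ * e⁻¹ = y⁻¹ := by group
  rw [h2, FreeGroup.norm_inv_eq, FreeGroup.norm_inv_eq, h0] at h1
  have h3 := norm_inv_mul y e
  have h4 : (y⁻¹ * e).norm = (e⁻¹ * y).norm := by
    rw [← FreeGroup.norm_inv_eq]; congr 1; group
  rw [h4] at h3
  omega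

/-- the map `x ↦ (h ↦ [h⁻¹ x starts with c])` -/
def Phi (x : F3) : F3 → Bool := fun h => sC (h⁻¹ * x)

/-- left translation on `{0,1}^F` -/
def shift (g : F3) (f : F3 → Bool) : F3 → Bool := fun h => f (g⁻¹ * h)

lemma shift_Phi (g x : F3) : shift g (Phi x) = Phi (g * x) := by
  funext h
  unfold shift Phi
  congr 1
  group

lemma continuous_shift (g : F3) : Continuous (shift g) :=
  continuous_pi fun h => continuous_apply (g⁻¹ * h)

/-- The compactum `Z`: the closure of `Phi(F)` in the Cantor cube `{0,1}^F`. -/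
def Z3 : Type := {f : F3 → Bool // f ∈ closure (Set.range Phi)}

instance : TopologicalSpace Z3 := inferInstanceAs (TopologicalSpace {f : F3 → Bool // f ∈ closure (Set.range Phi)})

instance : CompactSpace Z3 := isCompact_iff_compactSpace.mp (isClosed_closure.isCompact)

instance : Countable F3 := by
  have : Function.Injective (FreeGroup.toWord : F3 → List (Fin 3 × Bool)) :=
    FreeGroup.toWord_injective
  exact this.countable

instance : TopologicalSpace.MetrizableSpace Z3 :=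
  inferInstanceAs (TopologicalSpace.MetrizableSpace {f : F3 → Bool // f ∈ closure (Set.range Phi)})

lemma shift_mem (g : F3) {f : F3 → Bool} (hf : f ∈ closure (Set.range Phi)) :
    shift g f ∈ closure (Set.range Phi) := by
  refine map_mem_closure (continuous_shift g) hf ?_
  rintro _ ⟨x, rfl⟩
  exact ⟨g * x, (shift_Phi g x).symm⟩

instance : MulAction F3 Z3 where
  smul g f := ⟨shift g f.1, shift_mem g f.2⟩
  one_smul f := Subtype.ext (by
    funext h
    show f.1 (1⁻¹ * h) = f.1 h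
    simp)
  mul_smul g g' f := Subtype.ext (by
    funext h
    show f.1 ((g * g')⁻¹ * h) = f.1 (g'⁻¹ * (g⁻¹ * h))
    congr 1
    group)

lemma smul_val (g : F3) (f : Z3) : (g • f).1 = shift g f.1 := rfl

lemma smul_apply (g h : F3) (f : Z3) : (g • f).1 h = f.1 (g⁻¹ * h) := rfl

instance : ContinuousConstSMul F3 Z3 where
  continuous_const_smul g := by
    apply Continuous.subtype_mk
    exact (continuous_shift g).comp continuous_subtype_val

/-- the point of `Z` given by a group element -/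
def zpt (x : F3) : Z3 := ⟨Phi x, subset_closure ⟨x, rfl⟩⟩

lemma smul_zpt (g x : F3) : g • zpt x = zpt (g * x) := Subtype.ext (shift_Phi g x)

lemma inducing_val : Topology.IsInducing (fun z : Z3 => z.1) := Topology.IsInducing.subtypeVal

lemma tendsto_Z3 {ι : Type} {l : Filter ι} (u : ι → Z3) (z : Z3)
    (h : ∀ g : F3, ∀ᶠ n in l, (u n).1 g = z.1 g) : Tendsto u l (𝓝 z) := by
  rw [inducing_val.tendsto_nhds_iff, tendsto_pi_nhds]
  intro g
  exact tendsto_nhds_of_eventually_eq (h g)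

lemma eventually_of_tendsto_Z3 {ι : Type} {l : Filter ι} {u : ι → Z3} {z : Z3}
    (h : Tendsto u l (𝓝 z)) (g : F3) : ∀ᶠ n in l, (u n).1 g = z.1 g := by
  rw [inducing_val.tendsto_nhds_iff, tendsto_pi_nhds] at h
  have h1 := h g
  rw [nhds_discrete, tendsto_pure] at h1
  exact h1

/-! ### The Cannon-Thurston map -/

lemma exists_limit_value (x : GromovSeq S3) (h : F3) :
    ∃ b : Bool, ∃ M : ℕ, ∀ n, M ≤ n → sC (h⁻¹ * x.1 n) = b := by
  obtain ⟨M, hM⟩ := (convInf_iff x.1).mp x.2 (h.norm + 1)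
  refine ⟨sC (h⁻¹ * x.1 M), M, fun n hn => ?_⟩
  apply sC_eq_of_lcp
  have h1 := hM n M hn le_rfl
  have h2 := lcp_translate h (x.1 n) (x.1 M)
  omega

/-- limit of `Phi (x n)` -/
noncomputable def limPhi (x : GromovSeq S3) (h : F3) : Bool :=
  Classical.choose (exists_limit_value x h)

lemma limPhi_spec (x : GromovSeq S3) (h : F3) :
    ∃ M : ℕ, ∀ n, M ≤ n → Phi (x.1 n) h = limPhi x h :=
  Classical.choose_spec (exists_limit_value x h)

lemma tendsto_limPhi (x : GromovSeq S3) :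
    Tendsto (fun n => Phi (x.1 n)) atTop (𝓝 (limPhi x)) := by
  rw [tendsto_pi_nhds]
  intro h
  obtain ⟨M, hM⟩ := limPhi_spec x h
  apply tendsto_nhds_of_eventually_eq
  filter_upwards [eventually_ge_atTop M] with n hn
  exact hM n hn

lemma limPhi_mem (x : GromovSeq S3) : limPhi x ∈ closure (Set.range Phi) :=
  mem_closure_of_tendsto (tendsto_limPhi x) (Eventually.of_forall fun _ => ⟨_, rfl⟩)

lemma limPhi_eq_of_equiv (x y : GromovSeq S3) (h : GromovEquiv S3 x y) :
    limPhi x = limPhi y := by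
  funext g
  rw [gromovEquiv_iff] at h
  obtain ⟨M, hM⟩ := h (g.norm + 1)
  obtain ⟨M1, hM1⟩ := limPhi_spec x g
  obtain ⟨M2, hM2⟩ := limPhi_spec y g
  set n := max M (max M1 M2) with hn
  rw [← hM1 n (by omega), ← hM2 n (by omega)]
  apply sC_eq_of_lcp
  have h1 := hM n (by omega)
  have h2 := lcp_translate g (x.1 n) (y.1 n)
  omega

/-- the Cannon-Thurston map -/
noncomputable def ctMap : Bdry S3 → Z3 :=
  Quot.lift (fun x => (⟨limPhi x, limPhi_mem x⟩ : Z3))
    (fun x y h => Subtype.ext (limPhi_eq_of_equiv x y h))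

lemma ctMap_mk (x : GromovSeq S3) : (ctMap (Quot.mk _ x)).1 = limPhi x := rfl

lemma tendsto_zpt (x : GromovSeq S3) :
    Tendsto (fun n => zpt (x.1 n)) atTop (𝓝 (ctMap (Quot.mk _ x))) := by
  apply tendsto_Z3
  intro g
  obtain ⟨M, hM⟩ := limPhi_spec x g
  filter_upwards [eventually_ge_atTop M] with n hn
  exact hM n hn

lemma ctMap_agree (p q : Bdry S3) (g : F3)
    (h : ∀ n < g.norm + 1, bWord p n = bWord q n) : (ctMap p).1 g = (ctMap q).1 g := by
  obtain ⟨x, rfl⟩ := Quot.exists_rep p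
  obtain ⟨y, rfl⟩ := Quot.exists_rep q
  rw [ctMap_mk, ctMap_mk]
  obtain ⟨M, hM⟩ := lcp_ge_of_agree x y (g.norm + 1) h
  obtain ⟨M1, hM1⟩ := limPhi_spec x g
  obtain ⟨M2, hM2⟩ := limPhi_spec y g
  set n := max M (max M1 M2) with hn
  rw [← hM1 n (by omega), ← hM2 n (by omega)]
  apply sC_eq_of_lcp
  have h1 := hM n n (by omega) (by omega)
  have h2 := lcp_translate g (x.1 n) (y.1 n)
  omega

lemma ctMap_isCannonThurston : IsCannonThurston S3 m3 ctMap := by
  constructor
  · intro p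
    apply tendsto_Z3
    intro g
    let _ := m3
    have hball : Metric.ball p ((1 / 2 : ℝ) ^ g.norm) ∈ 𝓝 p :=
      Metric.ball_mem_nhds p (by positivity)
    filter_upwards [hball] with q hq
    rcases eq_or_ne q p with rfl | hqp
    · rfl
    · apply ctMap_agree
      intro n hn
      have h1 : dist q p = (1 / 2 : ℝ) ^ PiNat.firstDiff (bWord q) (bWord p) := m3_dist q p hqp
      rw [Metric.mem_ball, h1] at hq
      have h2 : g.norm < PiNat.firstDiff (bWord q) (bWord p) := by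
        by_contra hle
        push Not at hle
        have := pow_le_pow_of_le_one (a := (1 / 2 : ℝ)) (by norm_num) (by norm_num) hle
        linarith
      exact PiNat.apply_eq_of_lt_firstDiff (by omega)
  · refine ⟨zpt 1, ?_⟩
    rintro x p ⟨hx, rfl⟩
    have h1 := tendsto_zpt ⟨x, hx⟩
    have h2 : (fun n => x n • zpt 1) = fun n => zpt (x n) := by
      funext n
      rw [smul_zpt, mul_one]
    rw [h2]
    exact h1

/-! ### The convergence property -/

lemma norm_tendsto (u : GromovSeq S3) (N : ℕ) : ∃ M : ℕ, ∀ n, M ≤ n → N ≤ (u.1 n).norm := by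
  obtain ⟨M, hM⟩ := (convInf_iff u.1).mp u.2 N
  exact ⟨M, fun n hn => (hM n n hn hn).trans (lcp_le_left _ _)⟩

/-- Key claim. -/
lemma conv_key (u : GromovSeq S3) (z : ℕ → Z3) (z' : Z3) (hz : Tendsto z atTop (𝓝 z'))
    (hne : z' ≠ ctMap (Quot.mk _ u)) (g : F3) :
    ∀ᶠ n in atTop, (z n).1 (u.1 n * g) = Phi 1 (u.1 n * g) := by
  obtain ⟨k, hk⟩ : ∃ k : F3, z'.1 k ≠ (ctMap (Quot.mk _ u)).1 k := by
    by_contra hcon
    push Not at hcon
    exact hne (Subtype.ext (funext hcon))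
  rw [ctMap_mk] at hk
  have h1 := eventually_of_tendsto_Z3 hz k
  obtain ⟨M1, hM1⟩ := limPhi_spec u k
  obtain ⟨M2, hM2⟩ := norm_tendsto u (k.norm + g.norm + 1)
  filter_upwards [h1, eventually_ge_atTop M1, eventually_ge_atTop M2] with n hn1 hn2 hn3
  by_contra hcon
  -- approximate `z n` by `Phi y` at the two coordinates
  have hmem := (z n).2
  rw [mem_closure_iff] at hmem
  have hopen : IsOpen {f : F3 → Bool | f k = (z n).1 k ∧ f (u.1 n * g) = (z n).1 (u.1 n * g)} := by
    have hc1 : Continuous (fun f : F3 → Bool => f k) := continuous_apply k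
    have hc2 : Continuous (fun f : F3 → Bool => f (u.1 n * g)) := continuous_apply _
    apply IsOpen.inter
    · exact (isOpen_discrete {(z n).1 k}).preimage hc1
    · exact (isOpen_discrete {(z n).1 (u.1 n * g)}).preimage hc2
  obtain ⟨_, ⟨hf1, hf2⟩, ⟨y, rfl⟩⟩ := hmem _ hopen ⟨rfl, rfl⟩
  -- first consequence
  have h2 : lcp y (u.1 n * g) = (u.1 n * g).norm := by
    apply lcp_eq_of_sC_ne
    have h3 : Phi y (u.1 n * g) ≠ Phi 1 (u.1 n * g) := by rw [hf2]; exact hcon
    unfold Phi at h3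
    rwa [mul_one] at h3
  -- second consequence
  have h4 : lcp y (u.1 n) ≤ k.norm := by
    have h5 : Phi y k ≠ Phi (u.1 n) k := by
      rw [hf1, hn1, hM1 n hn2]; exact hk
    have h6 : lcp (k⁻¹ * y) (k⁻¹ * u.1 n) = 0 := by
      by_contra h7
      exact h5 (sC_eq_of_lcp (by omega))
    have h8 := lcp_translate k y (u.1 n)
    omega
  -- comparison
  have h9 := norm_inv_mul (u.1 n * g) (u.1 n)
  have h10 : ((u.1 n * g)⁻¹ * u.1 n).norm = g.norm := by
    rw [← FreeGroup.norm_inv_eq]; congr 1; group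
  rw [h10] at h9
  have h11 := min_lcp_le y (u.1 n * g) (u.1 n)
  have h12 : (u.1 n).norm ≤ (u.1 n * g).norm + g.norm := by
    have := FreeGroup.norm_mul_le (u.1 n * g) g⁻¹
    rwa [mul_inv_cancel_right, FreeGroup.norm_inv_eq] at this
  have h13 := hM2 n hn3
  rw [h2] at h11
  rcases le_total (u.1 n * g).norm (lcp (u.1 n * g) (u.1 n)) with h14 | h14
  · rw [min_eq_left h14] at h11
    omega
  · rw [min_eq_right h14] at h11
    omega

lemma finite_ball (N : ℕ) : {x : F3 | x.norm ≤ N}.Finite := by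
  have h1 : {l : List (Fin 3 × Bool) | l.length ≤ N}.Finite := List.finite_length_le _ N
  apply Set.Finite.of_injOn (f := FreeGroup.toWord) (t := {l : List (Fin 3 × Bool) | l.length ≤ N})
  · intro x hx; exact hx
  · exact FreeGroup.toWord_injective.injOn
  · exact h1

/-- an injective sequence has a subsequence converging to a boundary point -/
lemma exists_subseq (u : ℕ → F3) (hu : Function.Injective u) :
    ∃ φ : ℕ → ℕ, StrictMono φ ∧ ConvInf S3 (u ∘ φ) := by
  letI : TopologicalSpace (Option (Fin 3 × Bool)) := ⊥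
  haveI : DiscreteTopology (Option (Fin 3 × Bool)) := ⟨rfl⟩
  have := CompactSpace.tendsto_subseq (X := ℕ → Option (Fin 3 × Bool))
    (fun n k => (u n).toWord[k]?)
  obtain ⟨w, φ, hφ, hw⟩ := this
  refine ⟨φ, hφ, ?_⟩
  rw [convInf_iff]
  intro N
  rw [tendsto_pi_nhds] at hw
  have h1 : ∀ᶠ n in atTop, ∀ k ∈ Finset.range N, (u (φ n)).toWord[k]? = w k := by
    rw [Finset.eventually_all]
    intro k _
    have h2 := hw k
    rw [nhds_discrete, tendsto_pure] at h2
    exact h2
  have h3 : ∀ᶠ n in atTop, N ≤ (u (φ n)).norm := by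
    have h4 : Tendsto (u ∘ φ) atTop cofinite := by
      rw [← Nat.cofinite_eq_atTop]
      exact (hu.comp hφ.injective).tendsto_cofinite
    have h5 := h4.eventually ((finite_ball N).compl_mem_cofinite)
    filter_upwards [h5] with n hn
    simp only [Set.mem_compl_iff, Set.mem_ofPred_eq, not_le, Function.comp] at hn
    exact hn.le
  obtain ⟨M, hM⟩ := eventually_atTop.mp (h1.and h3)
  refine ⟨M, fun m n hm hn => ?_⟩
  unfold lcp
  rw [le_cpl_iff]
  intro k hk
  have h6 := (hM m hm).1 k (Finset.mem_range.mpr hk)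
  have h7 := (hM n hn).1 k (Finset.mem_range.mpr hk)
  refine ⟨?_, ?_⟩
  · simp only [Function.comp]
    rw [h6, h7]
  · have h8 := (hM m hm).2
    simp only [Function.comp]
    rw [List.getElem?_eq_getElem (lt_of_lt_of_le hk h8)]
    rfl

lemma ctMap_sub (x : GromovSeq S3) (φ : ℕ → ℕ) (hφ : StrictMono φ) :
    ConvInf S3 (x.1 ∘ φ) := by
  rw [convInf_iff]
  intro N
  obtain ⟨M, hM⟩ := (convInf_iff x.1).mp x.2 N
  exact ⟨M, fun m n hm hn => hM _ _ (hm.trans (hφ.id_le m)) (hn.trans (hφ.id_le n))⟩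

lemma limits_agree (u : GromovSeq S3) (x y : ℕ → Z3) (xl yl x' y' : Z3)
    (hx : Tendsto x atTop (𝓝 xl)) (hy : Tendsto y atTop (𝓝 yl))
    (hx' : Tendsto (fun n => (u.1 n)⁻¹ • x n) atTop (𝓝 x'))
    (hy' : Tendsto (fun n => (u.1 n)⁻¹ • y n) atTop (𝓝 y'))
    (hxq : xl ≠ ctMap (Quot.mk _ u)) (hyq : yl ≠ ctMap (Quot.mk _ u)) : x' = y' := by
  apply Subtype.ext
  funext g
  have h1 := conv_key u x xl hx hxq g
  have h2 := conv_key u y yl hy hyq g
  have h3 := eventually_of_tendsto_Z3 hx' g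
  have h4 := eventually_of_tendsto_Z3 hy' g
  obtain ⟨n, hn1, hn2, hn3, hn4⟩ := (h1.and (h2.and (h3.and h4))).exists
  rw [smul_apply, inv_inv] at hn3 hn4
  rw [← hn3, ← hn4, hn1, hn2]

theorem isConvergence : IsConvergenceAction F3 Z3 := by
  intro K hK hdist
  by_contra hinf
  have hinf : {h : F3 | ((fun t : Z3 × Z3 × Z3 => (h • t.1, h • t.2.1, h • t.2.2)) '' K ∩
      K).Nonempty}.Infinite := hinf
  set h : ℕ → F3 := fun n => (hinf.natEmbedding _ n : F3) with hh
  have hinj : Function.Injective h := fun a b hab =>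
    (hinf.natEmbedding _).injective (Subtype.ext hab)
  have hmem : ∀ n, ∃ t : Z3 × Z3 × Z3, t ∈ K ∧ (h n • t.1, h n • t.2.1, h n • t.2.2) ∈ K := by
    intro n
    obtain ⟨s, ⟨t, ht, rfl⟩, hs⟩ := (hinf.natEmbedding _ n).2
    exact ⟨t, ht, hs⟩
  choose t ht htK using hmem
  -- first subsequence
  obtain ⟨φ1, hφ1, hc1⟩ := exists_subseq (fun n => (h n)⁻¹)
    (fun a b hab => hinj (inv_injective hab))
  -- second subsequence
  obtain ⟨tl, htl, φ2, hφ2, hc2⟩ := hK.tendsto_subseq (x := fun n => t (φ1 n)) (fun n => ht _)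
  obtain ⟨sl, hsl, φ3, hφ3, hc3⟩ := hK.tendsto_subseq
    (x := fun n => (h (φ1 (φ2 n)) • (t (φ1 (φ2 n))).1, h (φ1 (φ2 n)) • (t (φ1 (φ2 n))).2.1,
      h (φ1 (φ2 n)) • (t (φ1 (φ2 n))).2.2)) (fun n => htK _)
  set ψ : ℕ → ℕ := fun n => φ1 (φ2 (φ3 n)) with hψ
  have hconv : ConvInf S3 (fun n => (h (ψ n))⁻¹) := by
    have h1 := ctMap_sub ⟨_, hc1⟩ (φ2 ∘ φ3) (hφ2.comp hφ3)
    exact h1
  set u : GromovSeq S3 := ⟨_, hconv⟩ with hu
  have hT : Tendsto (fun n => t (ψ n)) atTop (𝓝 tl) := hc2.comp hφ3.tendsto_atTop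
  have hx : Tendsto (fun n => (t (ψ n)).1) atTop (𝓝 tl.1) := (continuous_fst.tendsto _).comp hT
  have hy : Tendsto (fun n => (t (ψ n)).2.1) atTop (𝓝 tl.2.1) :=
    ((continuous_fst.comp continuous_snd).tendsto _).comp hT
  have hw : Tendsto (fun n => (t (ψ n)).2.2) atTop (𝓝 tl.2.2) :=
    ((continuous_snd.comp continuous_snd).tendsto _).comp hT
  have hx' : Tendsto (fun n => (u.1 n)⁻¹ • (t (ψ n)).1) atTop (𝓝 sl.1) := by
    have := (continuous_fst.tendsto _).comp hc3
    simpa [hu, hψ, Function.comp_def] using this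
  have hy' : Tendsto (fun n => (u.1 n)⁻¹ • (t (ψ n)).2.1) atTop (𝓝 sl.2.1) := by
    have := ((continuous_fst.comp continuous_snd).tendsto _).comp hc3
    simpa [hu, hψ, Function.comp_def] using this
  have hw' : Tendsto (fun n => (u.1 n)⁻¹ • (t (ψ n)).2.2) atTop (𝓝 sl.2.2) := by
    have := ((continuous_snd.comp continuous_snd).tendsto _).comp hc3
    simpa [hu, hψ, Function.comp_def] using this
  obtain ⟨d1, d2, d3⟩ := hdist tl htl
  obtain ⟨e1, e2, e3⟩ := hdist sl hsl
  by_cases c1 : tl.1 = ctMap (Quot.mk _ u)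
  · have c2 : tl.2.1 ≠ ctMap (Quot.mk _ u) := fun h => d1 (c1.trans h.symm)
    have c3 : tl.2.2 ≠ ctMap (Quot.mk _ u) := fun h => d2 (c1.trans h.symm)
    exact e3 (limits_agree u _ _ _ _ _ _ hy hw hy' hw' c2 c3)
  · by_cases c2 : tl.2.1 = ctMap (Quot.mk _ u)
    · have c3 : tl.2.2 ≠ ctMap (Quot.mk _ u) := fun h => d3 (c2.trans h.symm)
      exact e2 (limits_agree u _ _ _ _ _ _ hx hw hx' hw' c1 c3)
    · exact e1 (limits_agree u _ _ _ _ _ _ hx hy hx' hy' c1 c2)

end Pool.Agent.W_MP_d1e581_al
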