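import Mathlib
import Pool.Agent.W_MP_d1e581_al.Model

set_option autoImplicit false

open Filter Topology
open scoped ENNReal

namespace Pool.Agent.W_MP_d1e581_al

open FreeGroup

lemma not_sC_of_letters {x : F3} (h : ∀ a ∈ x.toWord, a.1 ≠ 2) : sC x = false := by
  unfold sC
  rw [decide_eq_false_iff_not]
  intro h1
  exact h _ (List.mem_of_getElem? h1) rfl

/-- elements without the letter `c` do not matter -/
lemma sC_P (g u : F3) (hu : ∀ a ∈ u.toWord, a.1 ≠ 2) : sC (g⁻¹ * u) = sC g⁻¹ := by
  by_contra hne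
  have h1 := lcp_eq_of_sC_ne hne
  have hg : ∀ a ∈ g.toWord, a.1 ≠ 2 := by
    intro a ha
    obtain ⟨n, hn, rfl⟩ := List.getElem_of_mem ha
    have h2 := (le_cpl_iff u.toWord g.toWord g.norm).mp h1.ge n hn
    have h3 : u.toWord[n]? = some g.toWord[n] := by
      rw [h2.1, List.getElem?_eq_getElem hn]
    exact hu _ (List.mem_of_getElem? h3)
  have hg' : ∀ a ∈ (g⁻¹ : F3).toWord, a.1 ≠ 2 := by
    intro a ha
    rw [FreeGroup.toWord_inv] at ha
    simp only [FreeGroup.invRev, List.mem_reverse, List.mem_map] at ha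
    obtain ⟨b, hb, rfl⟩ := ha
    exact hg b hb
  have hgu : ∀ a ∈ (g⁻¹ * u : F3).toWord, a.1 ≠ 2 := by
    intro a ha
    have h4 := (FreeGroup.toWord_mul_sublist g⁻¹ u).subset ha
    rcases List.mem_append.mp h4 with h5 | h5
    · exact hg' a h5
    · exact hu a h5
  rw [not_sC_of_letters hg', not_sC_of_letters hgu] at hne
  exact hne rfl

/-! ### A Cantor set of endpoints -/

/-- letters `a`, `b` coded by digits -/
def letter (d : Fin 2) : Fin 3 × Bool := if d = 0 then (0, true) else (1, true)

lemma letter_snd (d : Fin 2) : (letter d).2 = true := by unfold letter; split_ifs <;> rfl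

lemma letter_fst_ne (d : Fin 2) : (letter d).1 ≠ 2 := by
  unfold letter; split_ifs <;> decide

lemma isReduced_pos (L : List (Fin 3 × Bool)) (h : ∀ a ∈ L, a.2 = true) :
    FreeGroup.IsReduced L := by
  unfold FreeGroup.IsReduced
  induction L with
  | nil => exact List.isChain_nil
  | cons a L ih =>
    cases L with
    | nil => exact List.isChain_singleton a
    | cons b L =>
      rw [List.isChain_cons_cons]
      exact ⟨fun _ => by rw [h a (by simp), h b (by simp)],
        ih (fun c hc => h c (List.mem_cons_of_mem _ hc))⟩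

/-- positive words in `a`, `b` -/
def posWord (e : ℕ → Fin 2) (n : ℕ) : List (Fin 3 × Bool) := (List.range n).map (fun k => letter (e k))

lemma toWord_posWord (e : ℕ → Fin 2) (n : ℕ) :
    (FreeGroup.mk (posWord e n)).toWord = posWord e n := by
  rw [FreeGroup.toWord_mk]
  apply FreeGroup.IsReduced.reduce_eq
  apply isReduced_pos
  intro a ha
  simp only [posWord, List.mem_map] at ha
  obtain ⟨k, _, rfl⟩ := ha
  exact letter_snd _

lemma posWord_getElem (e : ℕ → Fin 2) (n k : ℕ) (hk : k < n) :
    (posWord e n)[k]? = some (letter (e k)) := by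
  unfold posWord
  rw [List.getElem?_map, List.getElem?_range hk]
  rfl

/-- the corresponding sequence -/
def posSeq (e : ℕ → Fin 2) : GromovSeq S3 := ⟨fun n => FreeGroup.mk (posWord e n), by
  rw [convInf_iff]
  intro N
  refine ⟨N, fun m n hm hn => ?_⟩
  unfold lcp
  rw [le_cpl_iff]
  intro k hk
  rw [toWord_posWord, toWord_posWord, posWord_getElem e m k (by omega),
    posWord_getElem e n k (by omega)]
  simp⟩

lemma limWord_posSeq (e : ℕ → Fin 2) (k : ℕ) : limWord (posSeq e) k = letter (e k) := by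
  apply limWord_unique _ _ _ (k + 1)
  intro m hm
  show (FreeGroup.mk (posWord e m)).toWord[k]? = _
  rw [toWord_posWord, posWord_getElem e m k (by omega)]

lemma ctMap_posSeq (e : ℕ → Fin 2) : ctMap (Quot.mk _ (posSeq e)) = zpt 1 := by
  apply Subtype.ext
  funext g
  rw [ctMap_mk]
  obtain ⟨M, hM⟩ := limPhi_spec (posSeq e) g
  rw [← hM M le_rfl]
  show sC (g⁻¹ * FreeGroup.mk (posWord e M)) = sC (g⁻¹ * 1)
  rw [mul_one]
  apply sC_P
  intro a ha
  rw [toWord_posWord] at ha
  simp only [posWord, List.mem_map] at ha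
  obtain ⟨k, _, rfl⟩ := ha
  exact letter_fst_ne _

/-- the digit map -/
noncomputable def psi (p : Bdry S3) : ℝ :=
  Real.ofDigits (fun n => if (bWord p n).1 = 1 then (1 : Fin 2) else 0)

lemma posSeq_mem_endpoints (e : ℕ → Fin 2) :
    (Quot.mk _ (posSeq e) : Bdry S3) ∈ endpoints S3 ctMap := by
  refine ⟨Quot.mk _ (posSeq (fun n => if e n = 0 then 1 else 0)), ?_, ?_⟩
  · intro h
    have h1 := congrFun (congrArg bWord h) 0
    rw [bWord_mk, bWord_mk, limWord_posSeq, limWord_posSeq] at h1
    unfold letter at h1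
    by_cases h0 : e 0 = 0
    · simp [h0] at h1
    · simp [h0] at h1
  · rw [ctMap_posSeq, ctMap_posSeq]

lemma one_le_hdim : 1 ≤ hdim S3 m3 (endpoints S3 ctMap) := by
  unfold hdim
  let _ := m3
  have hlip : LipschitzWith 1 psi := by
    apply LipschitzWith.of_dist_le_mul
    intro p q
    rcases eq_or_ne p q with rfl | hpq
    · simp
    · have h1 : dist p q = (1 / 2 : ℝ) ^ PiNat.firstDiff (bWord p) (bWord q) := m3_dist p q hpq
      rw [h1, Real.dist_eq]
      unfold psi
      refine le_trans (Real.abs_ofDigits_sub_ofDigits_le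
        (n := PiNat.firstDiff (bWord p) (bWord q)) ?_) ?_
      · intro i hi
        rw [PiNat.apply_eq_of_lt_firstDiff hi]
      · simp
  have h1 := hlip.dimH_image_le (endpoints S3 ctMap)
  refine le_trans ?_ h1
  have h2 : Set.Icc (0 : ℝ) 1 ⊆ psi '' endpoints S3 ctMap := by
    intro x hx
    obtain ⟨d, _, hd⟩ := Real.ofDigits_SurjOn (b := 2) (by norm_num) hx
    refine ⟨Quot.mk _ (posSeq d), posSeq_mem_endpoints d, ?_⟩
    rw [← hd]
    unfold psi
    congr 1
    funext n
    rw [bWord_mk, limWord_posSeq]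
    unfold letter
    by_cases h0 : d n = 0
    · simp [h0]
    · have : d n = 1 := by omega
      simp [this]
  refine le_trans ?_ (dimH_mono h2)
  have h3 : dimH (Set.Icc (0 : ℝ) 1) = Module.finrank ℝ ℝ := by
    apply Real.dimH_of_nonempty_interior
    rw [interior_Icc]
    exact Set.nonempty_Ioo.mpr one_pos
  rw [h3]
  simp

lemma Icc_subset_psi : Set.Icc (0 : ℝ) 1 ⊆ psi '' endpoints S3 ctMap := by
  intro x hx
  obtain ⟨d, _, hd⟩ := Real.ofDigits_SurjOn (b := 2) (by norm_num) hx
  refine ⟨Quot.mk _ (posSeq d), posSeq_mem_endpoints d, ?_⟩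
  rw [← hd]
  unfold psi
  congr 1
  funext n
  rw [bWord_mk, limWord_posSeq]
  unfold letter
  by_cases h0 : d n = 0
  · simp [h0]
  · have : d n = 1 := by omega
    simp [this]

/-- Positivity of the dimension for every visual metric. -/
lemma hdim_pos (a : ℝ) (m : MetricSpace (Bdry S3)) (hm : IsVisualMetric S3 a m) :
    0 < hdim S3 m (endpoints S3 ctMap) := by
  obtain ⟨ha, C, hC, hdist⟩ := hm
  have hloga : 0 < Real.log a := Real.log_pos ha
  have hr : 0 < Real.log 2 / Real.log a := div_pos (Real.log_pos (by norm_num)) hloga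
  obtain ⟨r, hrdef⟩ : ∃ r : NNReal, (r : ℝ) = Real.log 2 / Real.log a :=
    ⟨Real.toNNReal (Real.log 2 / Real.log a), Real.coe_toNNReal _ hr.le⟩
  have hr0 : 0 < r := by
    have : (0 : ℝ) < r := by rw [hrdef]; exact hr
    exact_mod_cast this
  have har : a ^ (r : ℝ) = 2 := by
    rw [hrdef, Real.rpow_def_of_pos (by linarith), mul_div_cancel₀ _ hloga.ne',
      Real.exp_log (by norm_num)]
  have hCr : 0 ≤ C ^ (r : ℝ) := by positivity
  have hr' : (0 : ℝ) ≤ r := r.2
  unfold hdim
  let _ := m
  have hhol : HolderWith (Real.toNNReal (C ^ (r : ℝ))) r psi := by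
    intro p q
    rcases eq_or_ne p q with rfl | hpq
    · simp
    · obtain ⟨_, h1, _⟩ := hdist p q hpq
      have h1 : a ^ (-(bdryProd S3 p q).toReal) / C ≤ dist p q := h1
      rw [bdryProd_eq p q hpq, ENNReal.toReal_natCast] at h1
      set N := PiNat.firstDiff (bWord p) (bWord q) with hN
      have h2 : |psi p - psi q| ≤ (1 / 2 : ℝ) ^ N := by
        unfold psi
        refine le_trans (Real.abs_ofDigits_sub_ofDigits_le (n := N) ?_) ?_
        · intro i hi
          rw [PiNat.apply_eq_of_lt_firstDiff hi]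
        · simp
      have h3 : a ^ (-(N : ℝ)) ≤ C * dist p q := by
        rw [div_le_iff₀ hC] at h1
        linarith
      have h4 : (1 / 2 : ℝ) ^ N = (a ^ (-(N : ℝ))) ^ (r : ℝ) := by
        rw [← Real.rpow_mul (by linarith), mul_comm, Real.rpow_mul (by linarith), har,
          Real.rpow_neg (by norm_num), Real.rpow_natCast]
        simp
      have h5 : |psi p - psi q| ≤ C ^ (r : ℝ) * dist p q ^ (r : ℝ) := by
        rw [← Real.mul_rpow hC.le dist_nonneg]
        refine h2.trans ?_
        rw [h4]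
        exact Real.rpow_le_rpow (Real.rpow_nonneg (by linarith) _) h3 hr'
      rw [edist_dist, edist_dist, Real.dist_eq, ENNReal.ofReal_rpow_of_nonneg dist_nonneg hr']
      have h6 : ((Real.toNNReal (C ^ (r : ℝ)) : NNReal) : ℝ≥0∞) =
          ENNReal.ofReal (C ^ (r : ℝ)) := rfl
      rw [h6, ← ENNReal.ofReal_mul hCr]
      exact ENNReal.ofReal_le_ofReal h5
  have h7 := hhol.dimH_image_le hr0 (endpoints S3 ctMap)
  have h8 : dimH (Set.Icc (0 : ℝ) 1) = Module.finrank ℝ ℝ := by
    apply Real.dimH_of_nonempty_interior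
    rw [interior_Icc]
    exact Set.nonempty_Ioo.mpr one_pos
  have h9 : (1 : ℝ≥0∞) ≤ dimH (endpoints S3 ctMap) / r := by
    refine le_trans ?_ ((dimH_mono Icc_subset_psi).trans h7)
    rw [h8]; simp
  rw [pos_iff_ne_zero]
  intro h10
  have h11 : dimH (endpoints S3 ctMap) = 0 := h10
  rw [h11, ENNReal.zero_div] at h9
  simp at h9

/-- Continuity for every visual metric. -/
lemma cannonThurston_visual (a : ℝ) (m : MetricSpace (Bdry S3)) (hm : IsVisualMetric S3 a m) :
    IsCannonThurston S3 m ctMap := by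
  refine ⟨?_, ctMap_isCannonThurston.2⟩
  obtain ⟨ha, C, hC, hdist⟩ := hm
  intro p
  apply tendsto_Z3
  intro g
  let _ := m
  have hball : Metric.ball p (a ^ (-(g.norm : ℝ)) / C) ∈ 𝓝 p :=
    Metric.ball_mem_nhds p (div_pos (Real.rpow_pos_of_pos (by linarith) _) hC)
  filter_upwards [hball] with q hq
  rcases eq_or_ne q p with rfl | hqp
  · rfl
  · apply ctMap_agree
    intro n hn
    obtain ⟨_, h1, _⟩ := hdist q p hqp
    have h1 : a ^ (-(bdryProd S3 q p).toReal) / C ≤ dist q p := h1
    rw [bdryProd_eq q p hqp, ENNReal.toReal_natCast] at h1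
    rw [Metric.mem_ball] at hq
    have h2 : g.norm < PiNat.firstDiff (bWord q) (bWord p) := by
      by_contra hle
      push Not at hle
      have h3 : a ^ (-(g.norm : ℝ)) ≤ a ^ (-(PiNat.firstDiff (bWord q) (bWord p) : ℝ)) := by
        apply Real.rpow_le_rpow_of_exponent_le ha.le
        have : (PiNat.firstDiff (bWord q) (bWord p) : ℝ) ≤ g.norm := by exact_mod_cast hle
        linarith
      have h4 := div_le_div_of_nonneg_right h3 hC.le
      linarith
    exact PiNat.apply_eq_of_lt_firstDiff (by omega)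

/-! ### Minimality -/

lemma isReduced_two (n : ℕ) (x y : Fin 3 × Bool) (h : x.1 ≠ y.1) :
    FreeGroup.IsReduced (List.replicate n x ++ List.replicate n y) := by
  unfold FreeGroup.IsReduced
  rw [List.isChain_append]
  refine ⟨List.isChain_replicate_of_rel _ (by simp), List.isChain_replicate_of_rel _ (by simp), ?_⟩
  intro a ha b hb hab
  have h1 : a = x := List.eq_of_mem_replicate (List.mem_of_mem_getLast? ha)
  have h2 : b = y := List.eq_of_mem_replicate (List.mem_of_mem_head? hb)
  subst h1; subst h2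
  exact absurd hab h

/-- `u_n = c^{±n} a^n` -/
def uEl (b : Bool) (n : ℕ) : F3 :=
  FreeGroup.mk (List.replicate n ((2 : Fin 3), b) ++ List.replicate n ((0 : Fin 3), true))

lemma toWord_uEl (b : Bool) (n : ℕ) : (uEl b n).toWord =
    List.replicate n ((2 : Fin 3), b) ++ List.replicate n ((0 : Fin 3), true) := by
  unfold uEl
  rw [FreeGroup.toWord_mk]
  exact (isReduced_two n _ _ (show (2 : Fin 3) ≠ 0 by decide)).reduce_eq

lemma uEl_getElem (b : Bool) (n k : ℕ) (hk : k < n) : (uEl b n).toWord[k]? = some (2, b) := by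
  rw [toWord_uEl, List.getElem?_append_left (by simpa using hk)]
  simp [hk]

def uSeq (b : Bool) : GromovSeq S3 := ⟨uEl b, by
  rw [convInf_iff]
  intro N
  refine ⟨N, fun m n hm hn => ?_⟩
  unfold lcp
  rw [le_cpl_iff]
  intro k hk
  rw [uEl_getElem b m k (by omega), uEl_getElem b n k (by omega)]
  simp⟩

lemma ctMap_uSeq_ne : ctMap (Quot.mk _ (uSeq true)) ≠ ctMap (Quot.mk _ (uSeq false)) := by
  intro h
  have h1 := congrArg (fun z : Z3 => z.1 1) h
  simp only [ctMap_mk] at h1
  obtain ⟨M1, hM1⟩ := limPhi_spec (uSeq true) 1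
  obtain ⟨M2, hM2⟩ := limPhi_spec (uSeq false) 1
  set n := max 1 (max M1 M2) with hn
  rw [← hM1 n (by omega), ← hM2 n (by omega)] at h1
  unfold Phi sC at h1
  simp only [inv_one, one_mul] at h1
  have e1 : ((uSeq true).1 n).toWord[0]? = some (2, true) := uEl_getElem true n 0 (by omega)
  have e2 : ((uSeq false).1 n).toWord[0]? = some (2, false) := uEl_getElem false n 0 (by omega)
  rw [e1, e2] at h1
  simp at h1

lemma zpt_one_mem_closure (z : Z3) : zpt 1 ∈ closure (MulAction.orbit F3 z) := by
  obtain ⟨b, hb⟩ : ∃ b : Bool, z ≠ ctMap (Quot.mk _ (uSeq b)) := by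
    by_contra hcon
    push Not at hcon
    exact ctMap_uSeq_ne ((hcon true).symm.trans (hcon false))
  apply mem_closure_of_tendsto (f := fun n => (uEl b n)⁻¹ • z) (b := atTop)
  · apply tendsto_Z3
    intro g
    have h1 := conv_key (uSeq b) (fun _ => z) z tendsto_const_nhds hb g
    filter_upwards [h1, eventually_ge_atTop (g.norm + 1)] with n hn hn2
    rw [smul_apply, inv_inv]
    have hn' : z.1 (uEl b n * g) = Phi 1 (uEl b n * g) := hn
    rw [hn']
    show sC ((uEl b n * g)⁻¹ * 1) = sC (g⁻¹ * 1)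
    rw [mul_one, mul_one, mul_inv_rev]
    -- compare with `a^{-n}`
    set v : F3 := FreeGroup.mk (List.replicate n ((0 : Fin 3), false)) with hv
    have hvw : v.toWord = List.replicate n ((0 : Fin 3), false) := by
      rw [hv, FreeGroup.toWord_mk]
      apply FreeGroup.IsReduced.reduce_eq
      exact List.isChain_replicate_of_rel _ (by simp)
    have h2 : sC (g⁻¹ * v) = sC g⁻¹ := by
      apply sC_P
      intro a ha
      rw [hvw] at ha
      rw [List.eq_of_mem_replicate ha]
      decide
    rw [← h2]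
    apply sC_eq_of_lcp
    have h3 : n ≤ lcp ((uEl b n)⁻¹) v := by
      unfold lcp
      rw [le_cpl_iff]
      intro k hk
      rw [hvw, FreeGroup.toWord_inv, toWord_uEl]
      have e1 : FreeGroup.invRev (List.replicate n ((2 : Fin 3), b) ++
          List.replicate n ((0 : Fin 3), true)) =
          List.replicate n ((0 : Fin 3), false) ++ List.replicate n ((2 : Fin 3), !b) := by
        simp [FreeGroup.invRev]
      rw [e1, List.getElem?_append_left (by simpa using hk)]
      simp [hk]
    have h4 := lcp_translate g ((uEl b n)⁻¹) v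
    omega
  · exact Eventually.of_forall fun n => ⟨(uEl b n)⁻¹, rfl⟩

lemma minimal_Z3 (z : Z3) : Dense (MulAction.orbit F3 z) := by
  have hinv : ∀ (g : F3) (w : Z3), w ∈ closure (MulAction.orbit F3 z) →
      g • w ∈ closure (MulAction.orbit F3 z) := by
    intro g w hw
    refine map_mem_closure (continuous_const_smul g) hw ?_
    rintro _ ⟨k, rfl⟩
    exact ⟨g * k, by simp [mul_smul]⟩
  intro w
  have h1 : ∀ x : F3, zpt x ∈ closure (MulAction.orbit F3 z) := by
    intro x
    have := hinv x _ (zpt_one_mem_closure z)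
    rwa [smul_zpt, mul_one] at this
  have h2 : w ∈ closure (Set.range zpt) := by
    rw [inducing_val.closure_eq_preimage_closure_image]
    show w.1 ∈ closure _
    have h3 : (fun z : Z3 => z.1) '' Set.range zpt = Set.range Phi := by
      rw [← Set.range_comp]; rfl
    rw [h3]
    exact w.2
  have h4 : closure (Set.range zpt) ⊆ closure (MulAction.orbit F3 z) := by
    apply closure_minimal _ isClosed_closure
    rintro _ ⟨x, rfl⟩
    exact h1 x
  exact h4 h2

lemma infinite_Z3 : Infinite Z3 := by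
  apply Infinite.of_injective (fun n : ℕ => zpt ((FreeGroup.of (2 : Fin 3)) ^ n))
  intro m n hmn
  by_contra hne
  wlog hlt : m < n generalizing m n with H
  · exact H hmn.symm (Ne.symm hne) (by omega)
  have h1 := congrArg (fun z : Z3 => z.1 ((FreeGroup.of (2 : Fin 3)) ^ m)) hmn
  simp only [zpt, Phi] at h1
  rw [inv_mul_cancel] at h1
  have h2 : ((FreeGroup.of (2 : Fin 3)) ^ m)⁻¹ * (FreeGroup.of (2 : Fin 3)) ^ n =
      (FreeGroup.of (2 : Fin 3)) ^ (n - m) := by
    rw [inv_mul_eq_iff_eq_mul, ← pow_add]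
    congr 1
    omega
  rw [h2] at h1
  unfold sC at h1
  rw [FreeGroup.toWord_of_pow, FreeGroup.toWord_one] at h1
  have h3 : (List.replicate (n - m) ((2 : Fin 3), true))[0]? = some (2, true) := by
    rw [List.getElem?_replicate, if_pos (by omega)]
  rw [h3] at h1
  simp at h1

lemma nonElementary_F3 : IsNonElementary F3 := by
  rintro ⟨C, hfin, hcyc⟩
  have hidx : C.index ≠ 0 := hfin.index_ne_zero
  obtain ⟨m, hm, _, hmC⟩ := Subgroup.exists_pow_mem_of_index_ne_zero hidx (FreeGroup.of (0 : Fin 3))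
  obtain ⟨n, hn, _, hnC⟩ := Subgroup.exists_pow_mem_of_index_ne_zero hidx (FreeGroup.of (1 : Fin 3))
  have hcomm : ∀ x y : C, x * y = y * x := by
    intro x y
    obtain ⟨g, hg⟩ := hcyc.exists_generator
    obtain ⟨i, rfl⟩ := Subgroup.mem_zpowers_iff.mp (hg x)
    obtain ⟨j, rfl⟩ := Subgroup.mem_zpowers_iff.mp (hg y)
    rw [← zpow_add, ← zpow_add, add_comm]
  have h1 := congrArg Subtype.val (hcomm ⟨_, hmC⟩ ⟨_, hnC⟩)
  simp only [Subgroup.coe_mul] at h1
  have h2 := congrArg FreeGroup.toWord h1
  rw [FreeGroup.toWord_mul, FreeGroup.toWord_mul, FreeGroup.toWord_of_pow,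
    FreeGroup.toWord_of_pow, FreeGroup.IsReduced.reduce_eq, FreeGroup.IsReduced.reduce_eq] at h2
  · have h3 := congrArg List.head? h2
    obtain ⟨m', rfl⟩ : ∃ m', m = m' + 1 := ⟨m - 1, by omega⟩
    obtain ⟨n', rfl⟩ : ∃ n', n = n' + 1 := ⟨n - 1, by omega⟩
    simp [List.replicate_succ] at h3
  · apply isReduced_pos
    intro a ha
    rcases List.mem_append.mp ha with h | h <;> rw [List.eq_of_mem_replicate h]
  · apply isReduced_pos
    intro a ha
    rcases List.mem_append.mp ha with h | h <;> rw [List.eq_of_mem_replicate h]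

end Pool.Agent.W_MP_d1e581_al
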